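import Pool.Agent.H110R3.UF.StmtsB

set_option autoImplicit false

open CategoryTheory MonoidalCategory CategoryTheory.Limits

universe v u

namespace Pool.Agent.H110R3.UF.B1X448

open Pool.Agent.H110R3.UF

theorem t : TaskB1.{v, u} := by
  intro D _ _ X H Y Y' W W' R r
  have e := whisker_exchange (H.σ Y).hom r
  have hL : insv H (Y ⊗ W) (W' ⊗ Y') (nest Y Y' W W' R r) =
      (ρ_ X).inv ≫ (X ◁ R) ≫ (α_ X Y Y').inv ≫ (((ρ_ (X ⊗ Y)).inv ≫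
        ((X ⊗ Y) ◁ r ≫ (H.σ Y).hom ▷ (W ⊗ W')) ≫ (α_ Y X (W ⊗ W')).hom ≫
        (Y ◁ (α_ X W W').inv) ≫ (Y ◁ ((H.σ W).hom ▷ W'))) ▷ Y') ≫ reas X Y Y' W W' := by
    simp only [insv, ins, nest, reas, H.hex]
    monoidal
  have hR : insv H Y Y' R ≫ ((Y ◁ insv H W W' r) ▷ Y') ≫ reas X Y Y' W W' =
      (ρ_ X).inv ≫ (X ◁ R) ≫ (α_ X Y Y').inv ≫ (((ρ_ (X ⊗ Y)).inv ≫
        ((H.σ Y).hom ▷ 𝟙_ D ≫ (Y ⊗ X) ◁ r) ≫ (α_ Y X (W ⊗ W')).hom ≫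
        (Y ◁ (α_ X W W').inv) ≫ (Y ◁ ((H.σ W).hom ▷ W'))) ▷ Y') ≫ reas X Y Y' W W' := by
    simp only [insv, ins, nest, reas]
    monoidal
  rw [hL, hR, ← e]

end Pool.Agent.H110R3.UF.B1X448
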