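import Pool.Agent.H110R3.UF.StmtsB

set_option autoImplicit false

open CategoryTheory MonoidalCategory CategoryTheory.Limits

universe v u

namespace Pool.Agent.H110R3.UF.B8X448

open Pool.Agent.H110R3.UF

theorem key {C : Type u} [Category.{v} C] [MonoidalCategory C] (W W' X : C) [ExactPairing W W'] :
    ((ρ_ X).inv ▷ W) ≫ ((X ◁ η_ W W') ▷ W) ≫ ((α_ X W W').inv ▷ W) ≫ (α_ (X ⊗ W) W' W).hom ≫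
      ((X ⊗ W) ◁ ε_ W W') ≫ (ρ_ (X ⊗ W)).hom = 𝟙 (X ⊗ W) := by
  have z := ExactPairing.evaluation_coevaluation W W'
  calc _ = ((ρ_ X).inv ▷ W) ≫ (α_ X (𝟙_ C) W).hom ≫
        (X ◁ (η_ W W' ▷ W ≫ (α_ W W' W).hom ≫ W ◁ ε_ W W')) ≫ (α_ X W (𝟙_ C)).inv ≫
          (ρ_ (X ⊗ W)).hom := by monoidal
    _ = _ := by rw [z]; monoidal

theorem t : TaskB8.{v, u} := by
  intro C _ _ _ _ _ W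
  refine ⟨Wᘁ, η_ W Wᘁ, fun X Z t h => ?_⟩
  have h2 : (((ρ_ X).inv ≫ (X ◁ η_ W Wᘁ) ≫ (α_ X W Wᘁ).inv ≫ (t ▷ Wᘁ)) ▷ W) ≫
      (α_ Z Wᘁ W).hom ≫ (Z ◁ ε_ W Wᘁ) ≫ (ρ_ Z).hom = 0 := by
    rw [h]; simp
  have h3 : (((ρ_ X).inv ≫ (X ◁ η_ W Wᘁ) ≫ (α_ X W Wᘁ).inv ≫ (t ▷ Wᘁ)) ▷ W) ≫
      (α_ Z Wᘁ W).hom ≫ (Z ◁ ε_ W Wᘁ) ≫ (ρ_ Z).hom =
      (((ρ_ X).inv ▷ W) ≫ ((X ◁ η_ W Wᘁ) ▷ W) ≫ ((α_ X W Wᘁ).inv ▷ W) ≫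
        (α_ (X ⊗ W) Wᘁ W).hom ≫ ((X ⊗ W) ◁ ε_ W Wᘁ) ≫ (ρ_ (X ⊗ W)).hom) ≫ t := by
    simp only [comp_whiskerRight, Category.assoc]
    have e1 : (t ▷ Wᘁ ▷ W) ≫ (α_ Z Wᘁ W).hom = (α_ (X ⊗ W) Wᘁ W).hom ≫ (t ▷ (Wᘁ ⊗ W)) := by
      simp
    have e2 : (t ▷ (Wᘁ ⊗ W)) ≫ (Z ◁ ε_ W Wᘁ) = ((X ⊗ W) ◁ ε_ W Wᘁ) ≫ (t ▷ 𝟙_ C) := by
      rw [whisker_exchange]
    have e3 : (t ▷ 𝟙_ C) ≫ (ρ_ Z).hom = (ρ_ (X ⊗ W)).hom ≫ t := by simp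
    rw [reassoc_of% e1, reassoc_of% e2, e3]
  rw [h3, key, Category.id_comp] at h2
  exact h2

end Pool.Agent.H110R3.UF.B8X448
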